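import Pool.Agent.helper61.CSW.W.SpecW

set_option autoImplicit false

open Complex Metric Set Filter Topology MeasureTheory
open YPPS (fd fdd pre TT CV IsCyc rho Exact)
open MPS (BB)
open Pool.Agent.helper98.ILF (juliaSet fatouSet)

noncomputable section

open CSS (SE SV JJ)

namespace YW

theorem FX2_open (R : ℝ) : IsOpen (CSS.HR R) := isOpen_lt continuous_const Complex.continuous_re

/-- a fixed point of a branch is a repelling fixed point. -/
theorem FX2_pt (f : SE) (R : ℝ) (G : ℂ → ℂ) (hG : CSS.LG f R G) (W : ℂ) (hW : W ∈ CSS.HR R) (m : ℕ)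
    (hb : ‖deriv G W‖ ≤ 1 / 20) (hfix : G W = W + (m : ℂ) * (2 * Real.pi * I)) :
    f.eval (exp W) = exp W ∧ 1 < ‖fd f (exp W)‖ := by
  have hex : exp (G W) = exp W := by
    rw [hfix, Complex.exp_add, Complex.exp_nat_mul_two_pi_mul_I, mul_one]
  have h1 : f.eval (exp W) = exp W := by
    have := hG.eq W hW
    rwa [hex] at this
  have hGd : HasDerivAt G (deriv G W) W := ((hG.dif).differentiableAt ((FX2_open R).mem_nhds hW)).hasDerivAt
  have hf : HasDerivAt f.f (deriv f.f (exp (G W))) (exp (G W)) := (f.dif _).hasDerivAt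
  have hc : HasDerivAt (fun w => f.f (exp (G w))) (deriv f.f (exp (G W)) * (exp (G W) * deriv G W)) W :=
    hf.comp W hGd.cexp
  have he : (fun w => f.f (exp (G w))) =ᶠ[𝓝 W] exp := by
    filter_upwards [(FX2_open R).mem_nhds hW] with w hw
    exact hG.eq w hw
  have hd := (hc.congr_of_eventuallyEq he.symm).unique (Complex.hasDerivAt_exp W)
  rw [hex] at hd
  have h0 := Complex.exp_ne_zero W
  have h2 : deriv f.f (exp W) * deriv G W = 1 := by
    have h3 : exp W * (deriv f.f (exp W) * deriv G W) = exp W * 1 := by linear_combination hd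
    exact mul_left_cancel₀ h0 h3
  have hn : ‖fd f (exp W)‖ * ‖deriv G W‖ = 1 := by
    rw [← norm_mul]
    change ‖deriv f.f (exp W) * deriv G W‖ = 1
    rw [h2, norm_one]
  refine ⟨h1, ?_⟩
  by_contra hlt
  push Not at hlt
  nlinarith [norm_nonneg (deriv G W), norm_nonneg (fd f (exp W))]

/-- fixed points of the branch `m`, for all large `m`. -/
theorem FX2_fp (f : SE) (R : ℝ) (hR : CSS.RA f R) (G : ℂ → ℂ) (hG : CSS.LG f R G)
    (hD : ∀ W ∈ CSS.HR R, ‖deriv G W‖ * (W.re - Real.log R) ≤ 4 * Real.pi)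
    (hF : ∀ B : ℝ, ∃ ρ : ℝ, ∀ W : ℂ, Real.log R + 1 ≤ W.re → ρ ≤ ‖W‖ → B ≤ (G W).re) (B : ℝ) :
    ∃ (W : ℂ) (m : ℕ), W ∈ CSS.HR R ∧ ‖deriv G W‖ ≤ 1 / 20 ∧ G W = W + (m : ℂ) * (2 * Real.pi * I) ∧ B ≤ W.re := by
  have hL : 0 ≤ Real.log R := Real.log_nonneg hR.one
  have hpi := Real.pi_pos
  have hpi3 := Real.pi_gt_three
  have hpi4 := Real.pi_lt_d2
  obtain ⟨A, hA⟩ : ∃ A : ℝ, A = Real.log R + 80 * Real.pi + 1 := ⟨_, rfl⟩
  have hA0 : 0 < A := by rw [hA]; positivity
  obtain ⟨ρ₁, hρ₁⟩ := hF A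
  obtain ⟨ρ₂, hρ₂⟩ := hF B
  obtain ⟨m, hm⟩ := exists_nat_gt (max (max A (20 / 11 * ‖G (A : ℂ)‖)) (max ρ₁ ρ₂) + 1)
  have hmA : A ≤ m := by
    have := le_max_left A (20 / 11 * ‖G (A : ℂ)‖)
    have := le_max_left (max A (20 / 11 * ‖G (A : ℂ)‖)) (max ρ₁ ρ₂)
    linarith
  have hmG : 20 / 11 * ‖G (A : ℂ)‖ ≤ m := by
    have := le_max_right A (20 / 11 * ‖G (A : ℂ)‖)
    have := le_max_left (max A (20 / 11 * ‖G (A : ℂ)‖)) (max ρ₁ ρ₂)
    linarith
  have hm1 : ρ₁ ≤ m := by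
    have := le_max_left ρ₁ ρ₂
    have := le_max_right (max A (20 / 11 * ‖G (A : ℂ)‖)) (max ρ₁ ρ₂)
    linarith
  have hm2 : ρ₂ ≤ m := by
    have := le_max_right ρ₁ ρ₂
    have := le_max_right (max A (20 / 11 * ‖G (A : ℂ)‖)) (max ρ₁ ρ₂)
    linarith
  have hm0 : (0 : ℝ) < m := lt_of_lt_of_le hA0 hmA
  -- the half plane
  have hHA : ∀ W : ℂ, A ≤ W.re → W ∈ CSS.HR R := fun W hW => by
    change Real.log R < W.re
    rw [hA] at hW
    nlinarith
  have hbd : ∀ W : ℂ, A ≤ W.re → ‖deriv G W‖ ≤ 1 / 20 := fun W hW => by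
    have h1 := hD W (hHA W hW)
    have h2 : 80 * Real.pi ≤ W.re - Real.log R := by rw [hA] at hW; linarith
    have h3 : ‖deriv G W‖ * (80 * Real.pi) ≤ 4 * Real.pi :=
      (mul_le_mul_of_nonneg_left h2 (norm_nonneg _)).trans h1
    have h4 : (‖deriv G W‖ * 20) * (4 * Real.pi) ≤ 1 * (4 * Real.pi) := by linarith
    have h5 := le_of_mul_le_mul_right h4 (by positivity)
    linarith
  have hconv : Convex ℝ {W : ℂ | A ≤ W.re} := convex_halfSpace_re_ge A
  have hlip : ∀ x y : ℂ, A ≤ x.re → A ≤ y.re → ‖G y - G x‖ ≤ 1 / 20 * ‖y - x‖ := fun x y hx hy =>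
    hconv.norm_image_sub_le_of_norm_deriv_le (𝕜 := ℂ)
      (fun z hz => (hG.dif).differentiableAt ((FX2_open R).mem_nhds (hHA z hz))) (fun z hz => hbd z hz) hx hy
  -- the set
  obtain ⟨S, hS⟩ : ∃ S : Set ℂ, S = {W : ℂ | A ≤ W.re ∧ W.re ≤ m ∧ |W.im + 2 * Real.pi * m| ≤ m} := ⟨_, rfl⟩
  have hSc : IsClosed S := by
    rw [hS]
    refine (isClosed_le continuous_const Complex.continuous_re).inter
      ((isClosed_le Complex.continuous_re continuous_const).inter
        (isClosed_le (continuous_abs.comp (Complex.continuous_im.add continuous_const)) continuous_const))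
  obtain ⟨g, hg⟩ : ∃ g : ℂ → ℂ, g = fun W => G W - (m : ℂ) * (2 * Real.pi * I) := ⟨_, rfl⟩
  have him : ((m : ℂ) * (2 * Real.pi * I)).im = 2 * Real.pi * m := by simp; ring
  have hre : ((m : ℂ) * (2 * Real.pi * I)).re = 0 := by simp
  have hGW : ∀ W ∈ S, ‖G W‖ ≤ m := fun W hW => by
    rw [hS] at hW
    obtain ⟨h1, h2, h3⟩ := hW
    have h4 := hlip (A : ℂ) W (by simp) h1
    have h5 : ‖W - (A : ℂ)‖ ≤ 9 * m := by
      have h6 := Complex.norm_le_abs_re_add_abs_im (W - (A : ℂ))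
      have h7 : |(W - (A : ℂ)).re| ≤ m := by
        rw [Complex.sub_re, Complex.ofReal_re, abs_of_nonneg (by linarith)]
        linarith
      have h8 : |(W - (A : ℂ)).im| ≤ 2 * Real.pi * m + m := by
        rw [Complex.sub_im, Complex.ofReal_im, sub_zero]
        have h9 : |W.im| ≤ |W.im + 2 * Real.pi * m| + |2 * Real.pi * m| := by
          have := abs_sub (W.im + 2 * Real.pi * m) (2 * Real.pi * m)
          simpa using this
        have h10 : |2 * Real.pi * (m : ℝ)| = 2 * Real.pi * m := abs_of_pos (by positivity)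
        linarith
      have h11 : 2 * Real.pi * (m : ℝ) ≤ 7 * m := by nlinarith
      linarith
    have h6 : ‖G W‖ ≤ ‖G (A : ℂ)‖ + ‖G W - G (A : ℂ)‖ := by
      have := norm_add_le (G (A : ℂ)) (G W - G (A : ℂ))
      simpa using this
    linarith
  have hWn : ∀ W ∈ S, (m : ℝ) ≤ ‖W‖ := fun W hW => by
    rw [hS] at hW
    obtain ⟨h1, h2, h3⟩ := hW
    have h4 := Complex.abs_im_le_norm W
    have h5 : |2 * Real.pi * (m : ℝ)| ≤ |W.im + 2 * Real.pi * m| + |W.im| := by
      have := abs_sub (W.im + 2 * Real.pi * m) W.im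
      simpa using this
    have h10 : |2 * Real.pi * (m : ℝ)| = 2 * Real.pi * m := abs_of_pos (by positivity)
    nlinarith
  have hSA : ∀ W ∈ S, A ≤ W.re := fun W hW => by rw [hS] at hW; exact hW.1
  have hmaps : MapsTo g S S := fun W hW => by
    have h1 := hGW W hW
    have h2 := hWn W hW
    have h3 := hρ₁ W (by have := hSA W hW; rw [hA] at this; nlinarith) (hm1.trans h2)
    have h4 := (abs_le.1 (Complex.abs_re_le_norm (G W))).2
    have h5 := Complex.abs_im_le_norm (G W)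
    rw [hS]
    refine ⟨?_, ?_, ?_⟩
    · rw [hg]; change A ≤ (G W - (m : ℂ) * (2 * Real.pi * I)).re
      rw [Complex.sub_re, hre, sub_zero]; exact h3
    · rw [hg]; change (G W - (m : ℂ) * (2 * Real.pi * I)).re ≤ m
      rw [Complex.sub_re, hre, sub_zero]; linarith
    · rw [hg]; change |(G W - (m : ℂ) * (2 * Real.pi * I)).im + 2 * Real.pi * m| ≤ m
      rw [Complex.sub_im, him, sub_add_cancel]; linarith
  have hlips : LipschitzOnWith (1 / 20) g S := by
    refine LipschitzOnWith.of_dist_le_mul fun x hx y hy => ?_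
    rw [dist_eq_norm, dist_eq_norm, hg]
    have h1 := hlip y x (hSA y hy) (hSA x hx)
    have h2 : (fun W => G W - (m : ℂ) * (2 * Real.pi * I)) x - (fun W => G W - (m : ℂ) * (2 * Real.pi * I)) y = G x - G y := by
      simp
    rw [h2]
    simpa using h1
  have hcon : ContractingWith (1 / 20) (hmaps.restrict g S S) := by
    refine ⟨?_, hlips.mapsToRestrict hmaps⟩
    rw [div_lt_one (by norm_num)]
    norm_num
  have hx0 : ((A : ℂ) - (m : ℂ) * (2 * Real.pi * I)) ∈ S := by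
    rw [hS]
    refine ⟨?_, ?_, ?_⟩
    · rw [Complex.sub_re, hre]; simp
    · rw [Complex.sub_re, hre]; simpa using hmA
    · rw [Complex.sub_im, him]; simp
  obtain ⟨W, hWS, hWf, -⟩ := hcon.exists_fixedPoint' hSc.isComplete hmaps hx0 (edist_ne_top _ _)
  refine ⟨W, m, hHA W (hSA W hWS), hbd W (hSA W hWS), ?_, ?_⟩
  · have h1 : g W = W := hWf
    rw [hg] at h1
    change G W - (m : ℂ) * (2 * Real.pi * I) = W at h1
    linear_combination h1
  · have h1 : g W = W := hWf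
    rw [hg] at h1
    change G W - (m : ℂ) * (2 * Real.pi * I) = W at h1
    have h2 : W.re = (G W).re := by
      have := congrArg Complex.re h1
      rw [Complex.sub_re, hre, sub_zero] at this
      exact this.symm
    rw [h2]
    exact hρ₂ W (by have := hSA W hWS; rw [hA] at this; nlinarith) (hm2.trans (hWn W hWS))

theorem FX2 (hFXG : FXG_stmt) (hRAX : CSS.RAX_stmt) (hNPL : CSS.NPL_stmt) (hLGB : CSS.LGB_stmt) (hLGD : CSS.LGD_stmt) :
    FX2_stmt := by
  intro f hfin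
  obtain ⟨R, -, hRA⟩ := hRAX f
  have hR := hRA R le_rfl
  obtain ⟨a, ha⟩ := hNPL f R 0
  rw [pow_zero, mul_one] at ha
  obtain ⟨G, W₀, hG, -, -, -⟩ := hLGB f R hR a ha
  obtain ⟨C, hC⟩ := isBounded_iff_forall_norm_le.1 hfin.isBounded
  obtain ⟨W, m, hW, hb, hfix, hB⟩ := FX2_fp f R hR G hG (fun W hW => (hLGD f R G hG W hW).1)
    (hFXG f R G hR hG) C
  have h1 := FX2_pt f R G hG W hW m hb hfix
  have h2 := hC (exp W) h1
  rw [Complex.norm_exp] at h2
  have h3 := Real.add_one_le_exp W.re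
  linarith

end YW
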